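import Pool.Agent.R751.MB.All

/-!
# The hyperplane form of the KLS conjecture for sums of arbitrarily many invariant norms

Q1, with an absolute constant, for all bodies

`K = {x ∈ ℝⁿ | ∑_{i ∉ J} N_i(x_i)^(p_i) ≤ 1, N_j(x_j) ≤ 1 for j ∈ J}`

where `x ↦ (x_i)` is a linear bijection of `ℝⁿ` onto a product of spaces of arbitrary dimensions, the
number of the blocks `x_i` is arbitrary, the exponents `p_i ≥ 1` are arbitrary and may be different, and
each `N_i` is a norm of one of the following kinds: a 1-symmetric norm (invariant under permutations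
and sign changes of the coordinates); a norm on real `m × l` matrices, `l ≤ m`, `3 ≤ m`, invariant under
multiplication by orthogonal matrices from the left (for example a unitarily invariant norm, `N(X)` is a
function of `Xᵀ X`); a norm on real symmetric or complex Hermitian matrices of order at least 3
invariant under conjugation by orthogonal (unitary) matrices. Examples: the unit balls of the mixed
norms `ℓ_p^M(ℓ_q^k)`, `1 ≤ p, q < ∞`, all `M` and `k` (theorem `mixed_norms`), of the `ℓ_p` sums of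
Schatten classes, `ℓ_p` sums of arbitrary 1-symmetric spaces, and products of arbitrarily many bodies of
this kind. The same for the images of these bodies under linear maps with kernels of dimension at most
`r`, with a constant which depends only on `r`.

In the earlier files the blocks are one-dimensional (`PowerSums`, `ImagesOfSections`, `OrliczBalls`),
or of bounded dimension (`SectionsOfProducts`), or Euclidean or subject to lower bounds for their
dimensions in terms of their number and invariant under the exchange of equal blocks (`RadialBlocks`,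
`HierarchicallyExchangeable`), or there is one block (`Exchangeable`, `SimultaneousConjugation`).

Method. (1) The density `exp (-∑ N_i(x_i)^(p_i))` is a product of log-concave densities, each with the
symmetry of its block, so after a linear change of the variables in each block (commuting with the
symmetry) it is isotropic and satisfies a Poincare inequality with an absolute constant (theorems
`OneSymmetric`, `OrthogonalInvariant`, `SimultaneousConjugation` of `MP_6d896a_gt`, starting files);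
Poincare inequalities in isotropic position are stable under products, and they pass to all linear
images, relative to the covariance. (2) Let `G = ∑ N_i(x_i)^(p_i)`, let `D_r` be the dilation
`x_i ↦ r^(1/p_i) x_i`, and `m = ∑ k_i / p_i`, `k_i` the dimensions of the blocks. If `Y` is uniform on
`{G ≤ 1}` and `r` has the Gamma distribution of parameter `m + 1`, independent of `Y`, then `D_r Y` has
the density proportional to `exp (-G)`. The blocks are even, so for a linear map `T = ∑ T_i` with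
`Cov(T Y) ≤ s` one has `E |T_i Y_i|² ≤ k_i s`, and for `t = r / (m + 1)`,
`E |T D_t Y - T Y|² = ∑ E (t^(1/p_i) - 1)² E |T_i Y_i|² ≤ C ∑ k_i s / (p_i² (m + 1)) ≤ C s`, because
`p_i ≥ 1`: the constant does not depend on the exponents. So the concentration of Lipschitz functions
on a constant scale, relative to the covariance, passes from `exp (-G)` to `{G ≤ 1}` and to all its
linear images. (3) The conditions `N_j(x_j) ≤ 1`, `j ∈ J`, are limits of high powers. (4) The images of
corank `r`, and the passage from the concentration of all linear images to the isoperimetric inequality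
for sets of measure one half, are those of `ImagesOfSections` (starting files, modules `Y506.PV` and
`KH`).

The lemmas were formalised by helpers 736, 235, 408, 451, 80, 97, 193, 746, 27, 136 (modules `R751.MB`,
`R80.MB`) and 751.
-/

set_option autoImplicit false

namespace Pool.Agent.Results.MP_dc1397_gt.BlockSums

open MeasureTheory Set
open scoped ENNReal InnerProductSpace

/-- Euclidean space of dimension `n` -/
abbrev Euc (n : ℕ) : Type := EuclideanSpace ℝ (Fin n)

/-- real `m × l` matrices, with the Euclidean structure of `ℝ^(ml)` -/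
abbrev Mat (m l : ℕ) : Type := EuclideanSpace ℝ (Fin m × Fin l)

/-- norms -/
structure IsNorm {κ : Type} [Fintype κ] (N : EuclideanSpace ℝ κ → ℝ) : Prop where
  add_le : ∀ x y, N (x + y) ≤ N x + N y
  smul : ∀ (r : ℝ) (x : EuclideanSpace ℝ κ), N (r • x) = |r| * N x
  pos : ∀ x, x ≠ 0 → 0 < N x

/-- `N` does not change when coordinates are permuted or change their signs -/
def OneSymmetric {k : ℕ} (N : Euc k → ℝ) : Prop :=
  ∀ σ : Equiv.Perm (Fin k), ∀ x y : Euc k, (∀ i, |y i| = |x (σ i)|) → N y = N x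

/-- `N (g X) = N X` for all orthogonal matrices `g` -/
def LeftInvariant {m l : ℕ} (N : Mat m l → ℝ) : Prop :=
  ∀ g ∈ Matrix.orthogonalGroup (Fin m) ℝ, ∀ X : Mat m l,
    N (WithLp.toLp 2 fun p => ∑ k, g p.1 k * X (k, p.2)) = N X

/-- `Φ` is a linear isometric parametrisation of the Hermitian `D × D` matrices over `𝕜` (`ℝ` or `ℂ`),
with the Hilbert-Schmidt norm, by `ℝ^ι` -/
structure HermFrame {𝕜 : Type} [RCLike 𝕜] {D : ℕ} {ι : Type} [Fintype ι]
    (Φ : EuclideanSpace ℝ ι →ₗ[ℝ] Matrix (Fin D) (Fin D) 𝕜) : Prop where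
  herm : ∀ x, (Φ x).conjTranspose = Φ x
  surj : ∀ A : Matrix (Fin D) (Fin D) 𝕜, A.conjTranspose = A → ∃ x, Φ x = A
  iso : ∀ x, ∑ i, ∑ j, ‖Φ x i j‖ ^ 2 = ‖x‖ ^ 2

/-- `N` does not change when the matrix `Φ x` is conjugated by a unitary matrix -/
def ConjInvariant {𝕜 : Type} [RCLike 𝕜] {D : ℕ} {ι : Type} [Fintype ι]
    (Φ : EuclideanSpace ℝ ι →ₗ[ℝ] Matrix (Fin D) (Fin D) 𝕜) (N : EuclideanSpace ℝ ι → ℝ) : Prop :=
  ∀ U ∈ Matrix.unitaryGroup (Fin D) 𝕜, ∀ x y : EuclideanSpace ℝ ι,
    Φ y = U * Φ x * U.conjTranspose → N y = N x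

/-- The norms on `ℝ^k` which are admitted: 1-symmetric norms, and, in any linear coordinates, left
invariant norms on `m × l` matrices, `1 ≤ l ≤ m`, `3 ≤ m`, and conjugation invariant norms on Hermitian
matrices of order at least 3. -/
inductive Admissible : ∀ k : ℕ, (Euc k → ℝ) → Prop
  | oneSymmetric (k : ℕ) (N : Euc k → ℝ) : 1 ≤ k → IsNorm N → OneSymmetric N → Admissible k N
  | matrices (m l k : ℕ) (e : Mat m l ≃ₗ[ℝ] Euc k) (N : Mat m l → ℝ) : 3 ≤ m → 1 ≤ l → l ≤ m →
      IsNorm N → LeftInvariant N → Admissible k fun z => N (e.symm z)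
  | hermitian (𝕜 : Type) [RCLike 𝕜] (D : ℕ) (ι : Type) [Fintype ι]
      (Φ : EuclideanSpace ℝ ι →ₗ[ℝ] Matrix (Fin D) (Fin D) 𝕜) (k : ℕ)
      (e : EuclideanSpace ℝ ι ≃ₗ[ℝ] Euc k) (N : EuclideanSpace ℝ ι → ℝ) : 3 ≤ D → HermFrame Φ →
      IsNorm N → ConjInvariant Φ N → Admissible k fun z => N (e.symm z)

/-- `K = {x | ∑_{i ∉ J} N_i(x_i)^(p_i) ≤ 1, N_j(x_j) ≤ 1 for j ∈ J}`, where `x ↦ (x_i)_i` is a linear
bijection of `ℝⁿ` onto `∏_{i < M} ℝ^(k_i)`, `p_i ≥ 1` and the norms `N_i` on `ℝ^(k_i)` are admissible -/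
def BlockBody {n : ℕ} (K : Set (Euc n)) : Prop :=
  ∃ (M : ℕ) (k : Fin M → ℕ) (L : Euc n ≃ₗ[ℝ] (∀ i, Euc (k i))) (p : Fin M → ℝ)
    (N : ∀ i, Euc (k i) → ℝ) (J : Finset (Fin M)), (∀ i, 1 ≤ p i) ∧
    (∀ i, Admissible (k i) (N i)) ∧
    K = {x | ∑ i ∈ Finset.univ \ J, N i (L x i) ^ p i ≤ 1 ∧ ∀ i ∈ J, N i (L x i) ≤ 1}

/-- the Lebesgue measure of a Euclidean space -/
noncomputable def lebesgue (F : Type) [NormedAddCommGroup F] [InnerProductSpace ℝ F]
    [FiniteDimensional ℝ F] [MeasurableSpace F] [BorelSpace F] : Measure F := volume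

/-- the Lebesgue measure (of the Euclidean space `W`) of the section `Ω ∩ W` by a subspace `W` -/
noncomputable def areaIn {F : Type} [NormedAddCommGroup F] [InnerProductSpace ℝ F]
    [FiniteDimensional ℝ F] [MeasurableSpace F] [BorelSpace F] (W : Submodule ℝ F) (Ω : Set F) :
    ℝ≥0∞ := lebesgue W {y : W | (y : F) ∈ Ω}

section defs

variable {κ : Type} [Fintype κ]

open Classical in
/-- divergence of a vector field on `ℝ^κ` -/
noncomputable def divergence (X : EuclideanSpace ℝ κ → EuclideanSpace ℝ κ)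
    (x : EuclideanSpace ℝ κ) : ℝ :=
  ∑ i, fderiv ℝ X x (EuclideanSpace.single i 1) i

/-- `C¹` vector fields with compact support in `Ω` and `‖X‖ ≤ 1` -/
structure Test (Ω : Set (EuclideanSpace ℝ κ)) (X : EuclideanSpace ℝ κ → EuclideanSpace ℝ κ) :
    Prop where
  diff : ContDiff ℝ 1 X
  comp : HasCompactSupport X
  sub : tsupport X ⊆ Ω
  le : ∀ x, ‖X x‖ ≤ 1

/-- the (De Giorgi) perimeter `P(E; Ω)` of `E` relative to the open set `Ω` -/
noncomputable def perimeter (E Ω : Set (EuclideanSpace ℝ κ)) : ℝ≥0∞ :=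
  ⨆ (X : EuclideanSpace ℝ κ → EuclideanSpace ℝ κ) (_ : Test Ω X),
    ENNReal.ofReal (∫ x in E, divergence X x)

/-- the area (Lebesgue measure in the hyperplane `a^⊥`) of the central section of `Ω` by `a^⊥` -/
noncomputable def sectionArea (Ω : Set (EuclideanSpace ℝ κ)) (a : EuclideanSpace ℝ κ) : ℝ≥0∞ :=
  areaIn (Submodule.span ℝ {a})ᗮ Ω

/-- some central hyperplane section has area at most `C P(E; Ω)` for every measurable `E ⊆ Ω` with
`|E| = |Ω| / 2` -/
def HyperplaneBound (C : ℝ) (Ω : Set (EuclideanSpace ℝ κ)) : Prop :=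
  ∃ a : EuclideanSpace ℝ κ, a ≠ 0 ∧ ∀ E : Set (EuclideanSpace ℝ κ), MeasurableSet E → E ⊆ Ω →
    volume E = volume Ω / 2 → sectionArea Ω a ≤ ENNReal.ofReal C * perimeter E Ω

/-- the perimeter is the one used in the proof -/
theorem perimeter_eq (E Ω : Set (EuclideanSpace ℝ κ)) :
    Pool.Agent.W695.KH.per E Ω = perimeter E Ω := by
  unfold perimeter Pool.Agent.W695.KH.per
  refine iSup_congr fun X => ?_
  refine iSup_congr_Prop ⟨fun h => ⟨h.1, h.2.1, h.2.2.1, h.2.2.2⟩,
    fun h => ⟨h.diff, h.comp, h.sub, h.le⟩⟩ fun _ => rfl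

end defs

theorem nrm_of {κ : Type} [Fintype κ] {N : EuclideanSpace ℝ κ → ℝ} (h : IsNorm N) :
    Pool.Agent.R751.MB.Nrm N := ⟨h.add_le, h.smul, h.pos⟩

theorem an_of {k : ℕ} {N : Euc k → ℝ} (h : Admissible k N) : Pool.Agent.R751.MB.AN k N := by
  cases h with
  | oneSymmetric _ _ hk hN hinv => exact .sym _ _ hk (nrm_of hN) hinv
  | matrices m l _ e N hm hl hlm hN hinv => exact .mat m l k e N hm hl hlm (nrm_of hN) hinv
  | hermitian 𝕜 D ι Φ _ e N hD hΦ hN hinv =>
    exact .her 𝕜 D ι Φ k e N hD ⟨hΦ.herm, hΦ.surj, hΦ.iso⟩ (nrm_of hN) hinv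

theorem bn_of {n : ℕ} {K : Set (Euc n)} (h : BlockBody K) : Pool.Agent.R751.MB.BN K := by
  obtain ⟨M, k, L, p, N, J, hp, hN, hK⟩ := h
  exact ⟨M, k, L, p, N, J, hp, fun i => an_of (hN i), hK⟩

theorem blockBody_lq (M k n : ℕ) (hk : 1 ≤ k) (p q : ℝ) (hp : 1 ≤ p) (hq : 1 ≤ q)
    (L : Euc n ≃ₗ[ℝ] (Fin M → Euc k)) :
    BlockBody {x | ∑ i, (∑ j, |L x i j| ^ q) ^ (p / q) ≤ 1} := by
  refine ⟨M, fun _ => k, L, fun _ => p, fun _ x => (∑ j, |x j| ^ q) ^ (1 / q), ∅, fun _ => hp,
    fun _ => ?_, ?_⟩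
  · have h := Pool.Agent.R751.MB.nrm_lq (k := k) hq
    refine .oneSymmetric k _ hk ⟨h.add_le, h.smul, h.pos⟩ fun σ x y hxy => ?_
    simp only
    congr 1
    rw [← Equiv.sum_comp σ fun j => |x j| ^ q]
    exact Finset.sum_congr rfl fun j _ => by rw [hxy j]
  · ext x
    have h1 : ∀ i, (∑ j, |L x i j| ^ q) ^ (p / q) = ((∑ j, |L x i j| ^ q) ^ (1 / q)) ^ p := by
      intro i
      rw [← Real.rpow_mul (Finset.sum_nonneg fun j _ => Real.rpow_nonneg (abs_nonneg _) _)]
      congr 1
      ring
    simp only [mem_ofPred_eq, h1, Finset.notMem_empty, false_implies, implies_true, and_true,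
      Finset.sdiff_empty]

/-- **The hyperplane form of the KLS conjecture for sums of invariant norms, and projections.** For
every `r` there is a constant `C > 0` such that for all `n ≥ 1`, all affine maps `T` of `ℝ^m` onto `ℝⁿ`,
`m ≤ n + r`, and all block bodies `K ⊂ ℝ^m` for which `T '' K` is symmetric, the interior `Ω` of `T '' K`
has a central hyperplane section `Ω ∩ a^⊥` with `H_{n-1}(Ω ∩ a^⊥) ≤ C P(E; Ω)` for every measurable
`E ⊆ Ω` with `|E| = |Ω| / 2`. For `r = 0` the constant is absolute and `T '' K = K` up to a linear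
bijection. -/
theorem result : ∀ r : ℕ, ∃ C : ℝ, 0 < C ∧
    ∀ (m n : ℕ) (K : Set (Euc m)) (T : Euc m →ᵃ[ℝ] Euc n), 1 ≤ n → m ≤ n + r →
    BlockBody K → Function.Surjective T → (∀ x ∈ T '' K, -x ∈ T '' K) →
    HyperplaneBound C (interior (T '' K)) := by
  intro r
  obtain ⟨c, hc, H⟩ := Pool.Agent.R751.MB.star_bn r
  obtain ⟨C, hC, H'⟩ := Pool.Agent.Y151.PV.hyp
  refine ⟨C * c, by positivity, fun m n K T hn hm hK hT hs => ?_⟩
  obtain ⟨h1, h2, h3, h4⟩ := H m n K T hn hm (bn_of hK) hT
  obtain ⟨P, hP⟩ : ∃ P : Set (Euc n), P = T '' K := ⟨_, rfl⟩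
  rw [← hP] at h1 h2 h3 h4 hs ⊢
  have hcl : closure (interior P) = P := by
    rw [h2.closure_interior_eq_closure_of_nonempty_interior h3, h1.isClosed.closure_eq]
  have hsi : ∀ x ∈ interior P, -x ∈ interior P := by
    intro x hx
    have hop : IsOpen ((fun y => -y) ⁻¹' interior P) := isOpen_interior.preimage continuous_neg
    have hsub : (fun y => -y) ⁻¹' interior P ⊆ P := by
      intro y hy
      have := hs _ (interior_subset hy)
      rwa [neg_neg] at this
    exact interior_maximal hsub hop (by simpa using hx)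
  have h0 : (0 : Euc n) ∈ interior P := by
    obtain ⟨x, hx⟩ := h3
    have h := h2.interior hx (hsi x hx) (by norm_num : (0 : ℝ) ≤ 1 / 2)
      (by norm_num : (0 : ℝ) ≤ 1 / 2) (by norm_num)
    rwa [smul_neg, add_neg_cancel] at h
  obtain ⟨a, ha, h⟩ := H' n hn (interior P) isOpen_interior h2.interior
    (h1.isBounded.subset interior_subset) h0 hsi c hc (by rw [hcl]; exact h4)
  refine ⟨a, ha, fun E hE hEΩ hvol => ?_⟩
  rw [← perimeter_eq]
  by_cases hp : Pool.Agent.W695.KH.per E (interior P) = ⊤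
  · rw [hp, ENNReal.mul_top (ENNReal.ofReal_pos.2 (by positivity)).ne']
    exact le_top
  · refine (h E hE hEΩ hvol _ (Pool.Agent.W695.KH.perLe_toReal E _ hp)).trans (le_of_eq ?_)
    rw [ENNReal.ofReal_mul (by positivity), ENNReal.ofReal_toReal hp]

/-- **Mixed norms.** There is an absolute constant `C > 0` such that for all real `p, q ≥ 1`, all
`M, k ≥ 1` and all linear bijections `x ↦ (x_ij)` of `ℝⁿ` onto the `M × k` matrices the interior of
`{x | ∑_i (∑_j |x_ij|^q)^(p/q) ≤ 1}` (the unit ball of `ℓ_p^M(ℓ_q^k)` in any linear coordinates)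
satisfies the inequality. -/
theorem mixed_norms : ∃ C : ℝ, 0 < C ∧ ∀ (M k n : ℕ) (p q : ℝ), 1 ≤ n → 1 ≤ k → 1 ≤ p → 1 ≤ q →
    ∀ L : Euc n ≃ₗ[ℝ] (Fin M → Euc k),
    HyperplaneBound C (interior {x | ∑ i, (∑ j, |L x i j| ^ q) ^ (p / q) ≤ 1}) := by
  obtain ⟨C, hC, H⟩ := result 0
  refine ⟨C, hC, fun M k n p q hn hk hp hq L => ?_⟩
  have e : (AffineMap.id ℝ (Euc n)) '' {x | ∑ i, (∑ j, |L x i j| ^ q) ^ (p / q) ≤ 1} =
      {x | ∑ i, (∑ j, |L x i j| ^ q) ^ (p / q) ≤ 1} := by
    simp
  have h := H n n _ (AffineMap.id ℝ (Euc n)) hn le_rfl (blockBody_lq M k n hk p q hp hq L)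
    Function.surjective_id (by
      rw [e]
      intro x hx
      simp only [mem_ofPred_eq, map_neg, Pi.neg_apply, PiLp.neg_apply, abs_neg] at hx ⊢
      exact hx)
  rwa [e] at h

end Pool.Agent.Results.MP_dc1397_gt.BlockSums
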