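import Pool.Agent.R751.MB.AllD

/-!
# The hyperplane form of the KLS conjecture for composite bodies

Q1 for the bodies of the following class, with a constant which
depends only on `s` and on the number `h` of steps of the construction, and not on the dimensions. The
class contains: the convex bodies
which satisfy the Poincare inequality with constant `s` in isotropic position; polytopes in `ℝ^m` with
at most `m + s` facets; unit balls of 1-symmetric norms, of norms on real matrices `X` which are
functions of `XᵀX`, and of norms on symmetric or Hermitian matrices which are invariant under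
conjugation; bodies of configurations of particles in `ℝ^d`,
invariant under the permutations of the particles within `q` species, `d, q ≤ s` (in particular all
permutation invariant bodies). It is closed (with `h` increased by one) under affine maps with kernels of
dimension at most `s`, under products, under unconditional sums
`{x | (‖x_1‖_{K_1}, …, ‖x_b‖_{K_b}) ∈ D}` of `b ≤ s` symmetric bodies of arbitrary dimensions, `D ⊂ ℝ^b`
any unconditional convex body, and it contains the convex bodies in `ℝ^N × ℝ^j`, `j ≤ s`, whose fibres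
over `ℝ^j` are homothetic to one body of the class. So: the products and the unconditional sums of `b`
symmetric bodies with the Poincare inequality satisfy the inequality, whatever `D` and the dimensions
are, with a constant which depends on `b` and the constants of the bodies. Examples: the sets of
`(x_1, …, x_b)` for which the norms `(N_1(x_1), …, N_b(x_b))` of vectors or matrices, for different
norms of the kinds above and in any dimensions, form a point of an unconditional convex body in `ℝ^b`
(theorem `sums_of_norms`), bodies of revolution with a 1-symmetric or unitarily invariant profile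
instead of the Euclidean ball, and iterations and projections of all these.

The class of `Towers` is closed under fibrations with arbitrary fibres over a base of bounded dimension
and under adding dimensions; it has no products, no unconditional sums and no bodies with particles.

Method. (1) The property which is proved for all bodies of the class is the concentration of Lipschitz
functions on a constant scale, relative to the covariance, for the uniform measure and all its linear
images. For invariant bodies it follows from the theorems of the starting files by a linear change of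
variables which commutes with the symmetries and makes the body isotropic. (2) It is stable under
products (conditional variances). (3) The `D`-sum `{(‖x_i‖_{K_i})_i ∈ D}` is the image, under a linear map
with kernel of dimension `b`, of the convex body `{(x, t) | t ∈ D, t_i ≥ 0, x_i ∈ t_i K_i}`, whose fibres
over `ℝ^b` are the products `∏ t_i K_i`, diagonally related in the sense of the modules `R754.KG`, so
that the theorem proved there and the theorem of `ImagesOfSections` (modules `Y506.PV`) on
images apply. (4) The passage from the concentration of all linear images to the isoperimetric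
inequality for sets of measure one half is that of `ImagesOfSections`.

The lemmas were formalised by helpers 736, 235, 408, 451, 80, 97, 193, 746, 27, 136, 971, 327, 126,
and 619 (modules `R751.MB`, `R80.MB`), the modules `R754.KG`, `R755.KF`, `R476.OR` by the helpers
named there, and 751.
-/

set_option autoImplicit false

namespace Pool.Agent.Results.MP_dc1397_gt.CompositeBodies

open MeasureTheory Set
open scoped ENNReal InnerProductSpace Pointwise

/-- Euclidean space of dimension `n` -/
abbrev Euc (n : ℕ) : Type := EuclideanSpace ℝ (Fin n)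

/-- real `m × l` matrices, with the Euclidean structure of `ℝ^(ml)` -/
abbrev Mat (m l : ℕ) : Type := EuclideanSpace ℝ (Fin m × Fin l)

/-- norms -/
structure IsNorm {κ : Type} [Fintype κ] (N : EuclideanSpace ℝ κ → ℝ) : Prop where
  add_le : ∀ x y, N (x + y) ≤ N x + N y
  smul : ∀ (r : ℝ) (x : EuclideanSpace ℝ κ), N (r • x) = |r| * N x
  pos : ∀ x, x ≠ 0 → 0 < N x

/-- `N` does not change when coordinates are permuted or change their signs -/
def OneSymmetric {k : ℕ} (N : Euc k → ℝ) : Prop :=
  ∀ σ : Equiv.Perm (Fin k), ∀ x y : Euc k, (∀ i, |y i| = |x (σ i)|) → N y = N x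

/-- `N (g X) = N X` for all orthogonal matrices `g` -/
def LeftInvariant {m l : ℕ} (N : Mat m l → ℝ) : Prop :=
  ∀ g ∈ Matrix.orthogonalGroup (Fin m) ℝ, ∀ X : Mat m l,
    N (WithLp.toLp 2 fun p => ∑ k, g p.1 k * X (k, p.2)) = N X

/-- `Φ` is a linear isometric parametrisation of the Hermitian `D × D` matrices over `𝕜` (`ℝ` or `ℂ`),
with the Hilbert-Schmidt norm, by `ℝ^ι` -/
structure HermFrame {𝕜 : Type} [RCLike 𝕜] {D : ℕ} {ι : Type} [Fintype ι]
    (Φ : EuclideanSpace ℝ ι →ₗ[ℝ] Matrix (Fin D) (Fin D) 𝕜) : Prop where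
  herm : ∀ x, (Φ x).conjTranspose = Φ x
  surj : ∀ A : Matrix (Fin D) (Fin D) 𝕜, A.conjTranspose = A → ∃ x, Φ x = A
  iso : ∀ x, ∑ i, ∑ j, ‖Φ x i j‖ ^ 2 = ‖x‖ ^ 2

/-- `N` does not change when the matrix `Φ x` is conjugated by a unitary matrix -/
def ConjInvariant {𝕜 : Type} [RCLike 𝕜] {D : ℕ} {ι : Type} [Fintype ι]
    (Φ : EuclideanSpace ℝ ι →ₗ[ℝ] Matrix (Fin D) (Fin D) 𝕜) (N : EuclideanSpace ℝ ι → ℝ) : Prop :=
  ∀ U ∈ Matrix.unitaryGroup (Fin D) 𝕜, ∀ x y : EuclideanSpace ℝ ι,
    Φ y = U * Φ x * U.conjTranspose → N y = N x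

/-- The norms on `ℝ^k` which are admitted: 1-symmetric norms, and, in any linear coordinates, left
invariant norms on `m × l` matrices, `1 ≤ l ≤ m`, `3 ≤ m`, and conjugation invariant norms on Hermitian
matrices of order at least 3. -/
inductive Admissible : ∀ k : ℕ, (Euc k → ℝ) → Prop
  | oneSymmetric (k : ℕ) (N : Euc k → ℝ) : 1 ≤ k → IsNorm N → OneSymmetric N → Admissible k N
  | matrices (m l k : ℕ) (e : Mat m l ≃ₗ[ℝ] Euc k) (N : Mat m l → ℝ) : 3 ≤ m → 1 ≤ l → l ≤ m →
      IsNorm N → LeftInvariant N → Admissible k fun z => N (e.symm z)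
  | hermitian (𝕜 : Type) [RCLike 𝕜] (D : ℕ) (ι : Type) [Fintype ι]
      (Φ : EuclideanSpace ℝ ι →ₗ[ℝ] Matrix (Fin D) (Fin D) 𝕜) (k : ℕ)
      (e : EuclideanSpace ℝ ι ≃ₗ[ℝ] Euc k) (N : EuclideanSpace ℝ ι → ℝ) : 3 ≤ D → HermFrame Φ →
      IsNorm N → ConjInvariant Φ N → Admissible k fun z => N (e.symm z)

/-- convex bodies: compact, convex, with nonempty interior -/
structure IsBody {κ : Type} [Fintype κ] (K : Set (EuclideanSpace ℝ κ)) : Prop where
  comp : IsCompact K
  conv : Convex ℝ K
  int : (interior K).Nonempty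

/-- the uniform probability measure on `K` -/
noncomputable def unif {m : ℕ} (K : Set (Euc m)) : Measure (Euc m) :=
  (volume K)⁻¹ • volume.restrict K

/-- convex bodies which satisfy the Poincaré inequality `Var f ≤ c₀ E ‖∇ f‖²`, for all `C¹` functions,
in isotropic position: after some linear bijection `A` which makes all variances of the coordinates
in directions of length one equal to one -/
structure PoincareBody (c₀ : ℝ) {N : ℕ} (C : Set (Euc N)) : Prop extends IsBody C where
  ineq : ∃ A : Euc N ≃ₗ[ℝ] Euc N,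
    (∀ θ : Euc N, ProbabilityTheory.variance (fun x => ⟪A x, θ⟫_ℝ) (unif C) = ‖θ‖ ^ 2) ∧
    ∀ f : Euc N → ℝ, ContDiff ℝ 1 f → ProbabilityTheory.variance (fun x => f (A x)) (unif C) ≤
      c₀ * ∫ x, ‖fderiv ℝ f (A x)‖ ^ 2 ∂(unif C)

/-- polytopes (convex bodies) in `ℝ^m` which are intersections of at most `m + q` halfspaces or slabs
`{x | ⟪v_i, x⟫ ∈ I_i}`, `I_i` closed intervals (which may be unbounded) -/
structure FewSlabs (q : ℕ) {m : ℕ} (K : Set (Euc m)) : Prop where
  bdd : Bornology.IsBounded K
  int : (interior K).Nonempty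
  rep : ∃ (N : ℕ) (v : Fin N → Euc m) (I : Fin N → Set ℝ), N ≤ m + q ∧ (∀ i, IsClosed (I i)) ∧
    (∀ i, (I i).OrdConnected) ∧ K = {x | ∀ i, ⟪v i, x⟫_ℝ ∈ I i}

/-- configurations of `N` particles in `ℝ^d`: `x (i, α)` is the coordinate `α` of the particle `i` -/
abbrev Conf (N d : ℕ) : Type := EuclideanSpace ℝ (Fin N × Fin d)

/-- `K` does not change when the particles are permuted within their species; `b i` is the species of
the particle `i` -/
def PermInvariant {N d q : ℕ} (b : Fin N → Fin q) (K : Set (Conf N d)) : Prop :=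
  ∀ σ : Equiv.Perm (Fin N), (∀ i, b (σ i) = b i) → ∀ x y : Conf N d,
    (∀ i α, y (i, α) = x (σ i, α)) → x ∈ K → y ∈ K

/-- unconditional convex bodies `D ⊂ ℝ^b` -/
structure Unconditional {b : ℕ} (D : Set (Euc b)) : Prop extends IsBody D where
  unc : ∀ t ∈ D, ∀ s : Euc b, (∀ i, |s i| ≤ |t i|) → s ∈ D

/-- The `D`-sum `{x | x_i ∈ t_i K_i for all i, for some t ∈ D}` of the sets `K_i`; for symmetric convex
bodies `K_i` and unconditional `D` it is `{x | (‖x_i‖_{K_i})_i ∈ D}`. -/
def dSum {b : ℕ} {m : Fin b → ℕ} (D : Set (Euc b)) (K : ∀ i, Set (Euc (m i))) :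
    Set (∀ i, Euc (m i)) := {x | ∃ t ∈ D, ∀ i, x i ∈ t i • K i}

/-- the fibre over `t` of the set `K ⊂ ℝⁿ ≅ ℝ^N × ℝ^j` -/
def fibre {N j n : ℕ} (e : (Euc N × Euc j) ≃ₗ[ℝ] Euc n) (K : Set (Euc n)) (t : Euc j) :
    Set (Euc N) := {x | e (x, t) ∈ K}

/-- The class of bodies. At depth 0 it contains the polytopes in `ℝ^m` given by at most `m + s`
halfspaces or slabs, the bodies with the Poincare inequality with constant `s`, the unit balls of the
admissible norms and the bodies of configurations of particles in `ℝ^d` which are invariant under the permutations of the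
particles within `q` species, `d, q ≤ s`. Bodies of depth `h + 1` are obtained from those of depth `h` by
images under affine maps with kernels of dimension at most `s`, products of two bodies, `D`-sums of at
most `s` symmetric bodies, and as the convex bodies in `ℝ^N × ℝ^j`, `j ≤ s`, whose fibres over `ℝ^j` are,
except for those of volume zero, homothetic to one body `L` of depth `h`. -/
inductive Composite (s : ℕ) : ℕ → ∀ {n : ℕ}, Set (Euc n) → Prop
  | polytope {m : ℕ} {K : Set (Euc m)} : FewSlabs s K → Composite s 0 K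
  | poincare {m : ℕ} {K : Set (Euc m)} : PoincareBody s K → Composite s 0 K
  | unitBall {k : ℕ} {N : Euc k → ℝ} : Admissible k N → Composite s 0 {x | N x ≤ 1}
  | particles {N d q n : ℕ} (b : Fin N → Fin q) (e : Conf N d ≃ₗ[ℝ] Euc n) {K : Set (Conf N d)} :
      1 ≤ N → 1 ≤ d → d ≤ s → q ≤ s → Function.Surjective b → IsBody K → PermInvariant b K →
      Composite s 0 (e '' K)
  | up {h n : ℕ} {K : Set (Euc n)} : Composite s h K → Composite s (h + 1) K
  | image {h m n : ℕ} {K : Set (Euc m)} (T : Euc m →ᵃ[ℝ] Euc n) : m ≤ n + s →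
      Function.Surjective T → Composite s h K → Composite s (h + 1) (T '' K)
  | product {h a b n : ℕ} (e : (Euc a × Euc b) ≃ₗ[ℝ] Euc n) {K : Set (Euc a)} {L : Set (Euc b)} :
      Composite s h K → Composite s h L → Composite s (h + 1) (e '' (K ×ˢ L))
  | sum {h b n : ℕ} {m : Fin b → ℕ} (e : (∀ i, Euc (m i)) ≃ₗ[ℝ] Euc n) {D : Set (Euc b)}
      {K : ∀ i, Set (Euc (m i))} : b ≤ s → (∀ i, 1 ≤ m i) → Unconditional D →
      (∀ i, ∀ x ∈ K i, -x ∈ K i) → (∀ i, Composite s h (K i)) →
      Composite s (h + 1) (e '' dSum D K)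
  | fibred {h N j n : ℕ} (e : (Euc N × Euc j) ≃ₗ[ℝ] Euc n) {K : Set (Euc n)} {L : Set (Euc N)} :
      j ≤ s → Composite s h L → IsBody K →
      (∀ t, volume (fibre e K t) = 0 ∨ ∃ (v : Euc N) (ρ : ℝ), 0 < ρ ∧
        fibre e K t = (fun x => v + ρ • x) '' L) → Composite s (h + 1) K

/-- the Lebesgue measure of a Euclidean space -/
noncomputable def lebesgue (F : Type) [NormedAddCommGroup F] [InnerProductSpace ℝ F]
    [FiniteDimensional ℝ F] [MeasurableSpace F] [BorelSpace F] : Measure F := volume

/-- the Lebesgue measure (of the Euclidean space `W`) of the section `Ω ∩ W` by a subspace `W` -/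
noncomputable def areaIn {F : Type} [NormedAddCommGroup F] [InnerProductSpace ℝ F]
    [FiniteDimensional ℝ F] [MeasurableSpace F] [BorelSpace F] (W : Submodule ℝ F) (Ω : Set F) :
    ℝ≥0∞ := lebesgue W {y : W | (y : F) ∈ Ω}

section defs

variable {κ : Type} [Fintype κ]

open Classical in
/-- divergence of a vector field on `ℝ^κ` -/
noncomputable def divergence (X : EuclideanSpace ℝ κ → EuclideanSpace ℝ κ)
    (x : EuclideanSpace ℝ κ) : ℝ :=
  ∑ i, fderiv ℝ X x (EuclideanSpace.single i 1) i

/-- `C¹` vector fields with compact support in `Ω` and `‖X‖ ≤ 1` -/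
structure Test (Ω : Set (EuclideanSpace ℝ κ)) (X : EuclideanSpace ℝ κ → EuclideanSpace ℝ κ) :
    Prop where
  diff : ContDiff ℝ 1 X
  comp : HasCompactSupport X
  sub : tsupport X ⊆ Ω
  le : ∀ x, ‖X x‖ ≤ 1

/-- the (De Giorgi) perimeter `P(E; Ω)` of `E` relative to the open set `Ω` -/
noncomputable def perimeter (E Ω : Set (EuclideanSpace ℝ κ)) : ℝ≥0∞ :=
  ⨆ (X : EuclideanSpace ℝ κ → EuclideanSpace ℝ κ) (_ : Test Ω X),
    ENNReal.ofReal (∫ x in E, divergence X x)

/-- the area (Lebesgue measure in the hyperplane `a^⊥`) of the central section of `Ω` by `a^⊥` -/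
noncomputable def sectionArea (Ω : Set (EuclideanSpace ℝ κ)) (a : EuclideanSpace ℝ κ) : ℝ≥0∞ :=
  areaIn (Submodule.span ℝ {a})ᗮ Ω

/-- some central hyperplane section has area at most `C P(E; Ω)` for every measurable `E ⊆ Ω` with
`|E| = |Ω| / 2` -/
def HyperplaneBound (C : ℝ) (Ω : Set (EuclideanSpace ℝ κ)) : Prop :=
  ∃ a : EuclideanSpace ℝ κ, a ≠ 0 ∧ ∀ E : Set (EuclideanSpace ℝ κ), MeasurableSet E → E ⊆ Ω →
    volume E = volume Ω / 2 → sectionArea Ω a ≤ ENNReal.ofReal C * perimeter E Ω

/-- the perimeter is the one used in the proof -/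
theorem perimeter_eq (E Ω : Set (EuclideanSpace ℝ κ)) :
    Pool.Agent.W695.KH.per E Ω = perimeter E Ω := by
  unfold perimeter Pool.Agent.W695.KH.per
  refine iSup_congr fun X => ?_
  refine iSup_congr_Prop ⟨fun h => ⟨h.1, h.2.1, h.2.2.1, h.2.2.2⟩,
    fun h => ⟨h.diff, h.comp, h.sub, h.le⟩⟩ fun _ => rfl

end defs

theorem nrm_of {κ : Type} [Fintype κ] {N : EuclideanSpace ℝ κ → ℝ} (h : IsNorm N) :
    Pool.Agent.R751.MB.Nrm N := ⟨h.add_le, h.smul, h.pos⟩

theorem an_of {k : ℕ} {N : Euc k → ℝ} (h : Admissible k N) : Pool.Agent.R751.MB.AN k N := by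
  cases h with
  | oneSymmetric _ _ hk hN hinv => exact .sym _ _ hk (nrm_of hN) hinv
  | matrices m l _ e N hm hl hlm hN hinv => exact .mat m l k e N hm hl hlm (nrm_of hN) hinv
  | hermitian 𝕜 D ι Φ _ e N hD hΦ hN hinv =>
    exact .her 𝕜 D ι Φ k e N hD ⟨hΦ.herm, hΦ.surj, hΦ.iso⟩ (nrm_of hN) hinv

theorem var_eq {n : ℕ} {K : Set (Euc n)} (hK : IsCompact K) (hi : (interior K).Nonempty)
    {f : Euc n → ℝ} (hf : Continuous f) : ProbabilityTheory.variance f (unif K) =
      (∫ x, f x ^ 2 ∂(unif K)) - (∫ x, f x ∂(unif K)) ^ 2 := by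
  have h0 : volume K ≠ 0 := Pool.Agent.R755.KF.vol_ne hi
  have hp : IsProbabilityMeasure (unif K) :=
    Pool.Agent.R754.KG.un_prob h0 hK.measure_lt_top.ne
  have h2 : Integrable (fun x => f x ^ 2) (unif K) :=
    Pool.Agent.R754.KG.un_int h0 hK.isBounded (hf.pow 2)
  rw [ProbabilityTheory.variance_eq_sub
    ((memLp_two_iff_integrable_sq hf.aestronglyMeasurable).2 h2)]
  rfl

theorem pi_of {c₀ : ℝ} {N : ℕ} {C : Set (Euc N)} (h : PoincareBody c₀ C) :
    Pool.Agent.R755.KF.PI c₀ C := by
  obtain ⟨A, h1, h2⟩ := h.ineq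
  have hAc : Continuous A := A.toLinearMap.continuous_of_finiteDimensional
  refine ⟨h.comp, h.conv, h.int, A, fun θ => ?_, fun f hf => ?_⟩
  · have h3 := h1 θ
    rw [var_eq h.comp h.int (by fun_prop)] at h3
    exact h3
  · have h3 := h2 f hf
    rw [var_eq h.comp h.int (f := fun x => f (A x)) (hf.continuous.comp hAc)] at h3
    exact h3

theorem body_of {κ : Type} [Fintype κ] {K : Set (EuclideanSpace ℝ κ)} (h : IsBody K) :
    Pool.Agent.R751.MB.Body K := ⟨h.comp, h.conv, h.int⟩

theorem cp_of {s h n : ℕ} {K : Set (Euc n)} (H : Composite s h K) :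
    Pool.Agent.R751.MB.Cq s 1 (s + 1) h n K := by
  induction H with
  | polytope hK =>
    obtain ⟨N, v, I, hN, hI1, hI2, hK'⟩ := hK.rep
    exact .base _ _ ⟨hK.bdd, hK.int, Or.inl ⟨N, hN, v, I, hI1, hI2, hK'⟩⟩
  | poincare hK => exact .poi _ _ (Pool.Agent.R751.MB.pi_mono (by linarith) (pi_of hK))
  | unitBall hN =>
    refine .blk _ _ (Pool.Agent.R751.MB.AN.basic (an_of hN)).2 ⟨1, fun _ => _,
      (LinearEquiv.funUnique (Fin 1) ℝ (Euc _)).symm, fun _ => 1, fun _ => _, ∅, fun _ => le_rfl,
      fun _ => an_of hN, ?_⟩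
    ext x
    simp [LinearEquiv.funUnique_symm_apply]
  | particles b e hN hd hds hqs hb hK hinv =>
    exact .par _ _ _ _ b e _ hN hd hds hqs hb (body_of hK) hinv
  | up _ ih => exact .up _ _ _ ih
  | image T hm hT _ ih =>
    have hTL : ∀ x, T x = T 0 + T.linear x := fun x => by
      have h := T.map_vadd 0 x
      rw [vadd_eq_add, add_zero] at h
      rw [h, vadd_eq_add, add_comm]
    have hA : Function.Surjective T.linear := by
      rwa [AffineMap.linear_surjective_iff]
    have h2 := Pool.Agent.R751.MB.Cq.image _ _ _ _ T.linear (T 0) hm hA ih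
    rw [image_congr fun x _ => hTL x]
    exact h2
  | product e _ _ ih1 ih2 => exact .prod _ _ _ _ e _ _ ih1 ih2
  | sum e hb hm hD hs _ ih =>
    exact .dsum _ _ _ _ e _ _ hb hm ⟨body_of hD.toIsBody, hD.unc⟩ hs ih
  | fibred e hj _ hK hfib ih => exact .fibred _ _ _ _ _ e _ hj ih (body_of hK) hfib

/-- the unit balls of unconditional sums of admissible norms -/
theorem composite_norms {b n : ℕ} {m : Fin b → ℕ} (L : Euc n ≃ₗ[ℝ] (∀ i, Euc (m i)))
    {N : ∀ i, Euc (m i) → ℝ} (hN : ∀ i, Admissible (m i) (N i)) {D : Set (Euc b)}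
    (hD : Unconditional D) : Composite b 1 {x | WithLp.toLp 2 (fun i => N i (L x i)) ∈ D} := by
  have hn : ∀ i, IsNorm (N i) ∧ 1 ≤ m i := fun i => by
    have h := Pool.Agent.R751.MB.AN.basic (an_of (hN i))
    exact ⟨⟨h.1.add_le, h.1.smul, h.1.pos⟩, h.2⟩
  have h0 : ∀ i (x : Euc (m i)), 0 ≤ N i x := by
    intro i x
    by_cases hx : x = 0
    · have := (hn i).1.smul 0 0
      rw [hx]
      simp at this
      rw [this]
    · exact ((hn i).1.pos x hx).le
  have hs : ∀ i, ∀ x ∈ {x : Euc (m i) | N i x ≤ 1}, -x ∈ {x : Euc (m i) | N i x ≤ 1} := by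
    intro i x hx
    have h1 := (hn i).1.smul (-1) x
    rw [neg_one_smul, abs_neg, abs_one, one_mul] at h1
    change N i (-x) ≤ 1
    rw [h1]
    exact hx
  have key := Composite.sum (s := b) (h := 0) L.symm (D := D) (K := fun i => {x | N i x ≤ 1})
    le_rfl (fun i => (hn i).2) hD hs fun i => .unitBall (hN i)
  convert key using 1
  ext x
  constructor
  · intro hx
    refine ⟨L x, ⟨_, hx, fun i => ?_⟩, L.symm_apply_apply x⟩
    by_cases h1 : N i (L x i) = 0
    · have h2 : L x i = 0 := by
        by_contra h3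
        exact ((hn i).1.pos _ h3).ne' h1
      refine ⟨0, ?_, ?_⟩
      · change N i 0 ≤ 1
        have := (hn i).1.smul 0 0
        simp at this
        rw [this]
        exact zero_le_one
      · rw [h2]
        simp
    · have h2 : 0 < N i (L x i) := lt_of_le_of_ne (h0 i _) (Ne.symm h1)
      refine ⟨(N i (L x i))⁻¹ • L x i, ?_, ?_⟩
      · change N i _ ≤ 1
        rw [(hn i).1.smul, abs_inv, abs_of_pos h2, inv_mul_cancel₀ h1]
      · simp [smul_smul, h1]
  · rintro ⟨y, ⟨t, ht, hy⟩, rfl⟩
    refine hD.unc t ht _ fun i => ?_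
    obtain ⟨z, hz, e⟩ := hy i
    have hz' : N i z ≤ 1 := hz
    simp only [LinearEquiv.apply_symm_apply]
    rw [abs_of_nonneg (h0 i _), ← e]
    simp only
    rw [(hn i).1.smul]
    exact mul_le_of_le_one_right (abs_nonneg _) hz'

/-- **The hyperplane conjecture for symmetric composite bodies.** For all `s, h` there is a constant
`C > 0` such that for all `n ≥ 1` and all symmetric bodies `K ⊂ ℝⁿ` of the class `Composite s h`, the
interior `Ω` of `K` has a central hyperplane section `Ω ∩ a^⊥` with `H_{n-1}(Ω ∩ a^⊥) ≤ C P(E; Ω)` for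
every measurable `E ⊆ Ω` with `|E| = |Ω| / 2`. -/
theorem result : ∀ s h : ℕ, ∃ C : ℝ, 0 < C ∧
    ∀ (n : ℕ) (K : Set (Euc n)), 1 ≤ n → Composite s h K → (∀ x ∈ K, -x ∈ K) →
    HyperplaneBound C (interior K) := by
  intro s h
  obtain ⟨c, hc, H⟩ := Pool.Agent.R751.MB.star_cq s h (s + 1) (by positivity)
  obtain ⟨C, hC, H'⟩ := Pool.Agent.Y151.PV.hyp
  refine ⟨C * c, by positivity, fun n P hn hK hs => ?_⟩
  obtain ⟨h1, h2, h3, h4⟩ := H n P hn (cp_of hK)
  have hcl : closure (interior P) = P := by
    rw [h2.closure_interior_eq_closure_of_nonempty_interior h3, h1.isClosed.closure_eq]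
  have hsi : ∀ x ∈ interior P, -x ∈ interior P := by
    intro x hx
    have hop : IsOpen ((fun y => -y) ⁻¹' interior P) := isOpen_interior.preimage continuous_neg
    have hsub : (fun y => -y) ⁻¹' interior P ⊆ P := by
      intro y hy
      have := hs _ (interior_subset hy)
      rwa [neg_neg] at this
    exact interior_maximal hsub hop (by simpa using hx)
  have h0 : (0 : Euc n) ∈ interior P := by
    obtain ⟨x, hx⟩ := h3
    have h := h2.interior hx (hsi x hx) (by norm_num : (0 : ℝ) ≤ 1 / 2)
      (by norm_num : (0 : ℝ) ≤ 1 / 2) (by norm_num)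
    rwa [smul_neg, add_neg_cancel] at h
  obtain ⟨a, ha, h⟩ := H' n hn (interior P) isOpen_interior h2.interior
    (h1.isBounded.subset interior_subset) h0 hsi c hc (by rw [hcl]; exact h4)
  refine ⟨a, ha, fun E hE hEΩ hvol => ?_⟩
  rw [← perimeter_eq]
  by_cases hp : Pool.Agent.W695.KH.per E (interior P) = ⊤
  · rw [hp, ENNReal.mul_top (ENNReal.ofReal_pos.2 (by positivity)).ne']
    exact le_top
  · refine (h E hE hEΩ hvol _ (Pool.Agent.W695.KH.perLe_toReal E _ hp)).trans (le_of_eq ?_)
    rw [ENNReal.ofReal_mul (by positivity), ENNReal.ofReal_toReal hp]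

/-! ### special cases -/

/-- **Unconditional sums of invariant norms.** For every `b` there is a constant `C > 0` such that for
all `n ≥ 1`, all linear bijections `x ↦ (x_1, …, x_b)` of `ℝⁿ` onto products of spaces of any dimensions,
all admissible norms `N_i` and all unconditional convex bodies `D ⊂ ℝ^b` the interior of
`{x | (N_1(x_1), …, N_b(x_b)) ∈ D}` satisfies the inequality. -/
theorem sums_of_norms : ∀ b : ℕ, ∃ C : ℝ, 0 < C ∧ ∀ (n : ℕ) (m : Fin b → ℕ)
    (L : Euc n ≃ₗ[ℝ] (∀ i, Euc (m i))) (N : ∀ i, Euc (m i) → ℝ) (D : Set (Euc b)), 1 ≤ n →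
    (∀ i, Admissible (m i) (N i)) → Unconditional D →
    HyperplaneBound C (interior {x | WithLp.toLp 2 (fun i => N i (L x i)) ∈ D}) := by
  intro b
  obtain ⟨C, hC, H⟩ := result b 1
  refine ⟨C, hC, fun n m L N D hn hN hD => H n _ hn (composite_norms L hN hD) fun x hx => ?_⟩
  have h1 : (fun i => N i (L (-x) i)) = fun i => N i (L x i) := by
    funext i
    have h2 := Pool.Agent.R751.MB.AN.basic (an_of (hN i))
    have h3 := h2.1.smul (-1) (L x i)
    rw [neg_one_smul, abs_neg, abs_one, one_mul] at h3
    rw [map_neg, Pi.neg_apply, h3]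
  change WithLp.toLp 2 (fun i => N i (L (-x) i)) ∈ D
  rw [h1]
  exact hx

end Pool.Agent.Results.MP_dc1397_gt.CompositeBodies
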