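import Pool.Agent.R476.OR.Rl

/-!
# The hyperplane form of the KLS conjecture for symmetric generalised Orlicz balls

Q1, with an absolute constant, for all symmetric bodies `K = {x ∈ ℝⁿ | ∑_{i < n} V_i(ℓ_i(x)) ≤ E}`,
where `ℓ_i` are linear coordinates of `ℝⁿ` and `V_i : ℝ → [0, ∞]` are arbitrary convex lower
semicontinuous functions: some central hyperplane section has area at most a constant times the
relative perimeter of every set of half the volume (whether isoperimetric or not). There is no growth
condition and no condition on the level `E`. More generally for the symmetric images of generalised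
Orlicz balls under affine maps with kernels of dimension at most `r`, with a constant which depends
only on `r`.

Kolesnikov and Milman (The KLS isoperimetric conjecture for generalized Orlicz balls, Ann. Probab.
2018) prove the KLS inequality for the Orlicz balls in orthonormal coordinates, at certain levels and
under an assumption on the growth of the `V_i` at infinity, without which they lose a factor
`log (1 + n)`.

Method. Let `V_i` be `C¹` and normalised: after an exponential tilt `exp (-λ V_i)`, with `λ` the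
slope of `s ↦ log |{S ≤ s}|` at `E`, `S(x) = ∑ V_i(x_i)`, and an affine change of each coordinate,
`f_i = exp (-V_i)` are probability densities with mean zero and variance one, and `s = E` maximises
`exp (-s) |{S ≤ s}|`. Put `ρ = ∏ f_i = exp (-S)`, `σ² = 1 + ∑ Var V_i`; then
`exp (-E) |{S ≤ E}| ≥ c / σ` by Chebyshev's inequality. (1) Let `(v_i f_i)' = -(V_i - E V_i) f_i`. By
a Hardy inequality `E v_i² ≤ C Var V_i` and, using the convexity of `V_i`,
`E (V_i' v_i)² ≤ C Var V_i`, while `E V_i' v_i = Var V_i`. Integration by parts with the field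
`v(x) = (v_i(x_i))` and the function `U ψ(S - E)`, `ψ(r) = 1 / (1 + exp (-r))`, gives
`E [U ψ'(S - E) ⟨v, ∇S⟩] = E [U ψ(S - E) (S - E S)] - E [ψ(S - E) ⟨∇U, v⟩]`, in which `⟨v, ∇S⟩` may be
replaced by its mean `∑ Var V_i` with an error of the order `σ`: its fluctuation has second moment
at most `C σ²` because it is a sum of independent variables. So the mean of `U ≥ 0` over `{S ≤ E}`
is at most `C ((E U²)^{1/2} + sup ‖∇U‖ + E U)`: Lipschitz functions which are concentrated for the
product density `ρ` are concentrated on `{S ≤ E}`, on a constant scale and without the loss of a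
factor `log n`. (2) The law of `(⟨θ, x⟩, s)` with density `1[S(x) ≤ s] exp (-s)` is log-concave in the
plane, and `s = E` is its most likely level; two-dimensional estimates give the covariance of the
uniform measure on `{S ≤ E}` up to constants: it is comparable to the identity, reduced in the
direction of the vector `b` of the covariances of `x_i` and `V_i`. For a linear image one replaces a
function by its composition with the projection orthogonal to `b`. So the concentration on a
constant scale, relative to the covariance, holds for all linear images of the uniform measure.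
(3) Approximation of general `V_i`. (4) The images of corank `r`, and the passage from the
concentration of all linear images to the isoperimetric inequality for sets of measure one half, are
those of `ImagesOfSections` (starting files, modules `Y506.PV` and `KH`).

The proofs of the lemmas are by helpers 310, 790, 634, 628, 877, 834, 938, 165, 27, 999, 584 (modules
`R476.OR`, `R634.ORC`, `R834.OR`, `R938.ORF`) and 476.
-/

set_option autoImplicit false

namespace Pool.Agent.Results.MP_dc1397_gt.OrliczBalls

open MeasureTheory Set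
open scoped ENNReal InnerProductSpace

/-- Euclidean space of dimension `n` -/
abbrev Euc (n : ℕ) : Type := EuclideanSpace ℝ (Fin n)

/-- convex lower semicontinuous functions `V : ℝ → [0, ∞]` -/
structure ConvexLSC (V : ℝ → ℝ≥0∞) : Prop where
  lsc : LowerSemicontinuous V
  conv : ∀ x y t : ℝ, 0 < t → t < 1 →
    V ((1 - t) * x + t * y) ≤ ENNReal.ofReal (1 - t) * V x + ENNReal.ofReal t * V y

/-- Generalised Orlicz balls: bounded sets with nonempty interior of the form
`K = {x ∈ ℝ^m | ∑_{i < m} V_i(x_i) ≤ E}` with convex lower semicontinuous functions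
`V_i : ℝ → [0, ∞]`. -/
structure OrliczBall {m : ℕ} (K : Set (Euc m)) : Prop where
  bdd : Bornology.IsBounded K
  int : (interior K).Nonempty
  rep : ∃ (V : Fin m → ℝ → ℝ≥0∞) (E : ℝ≥0∞), (∀ i, ConvexLSC (V i)) ∧
    K = {x | ∑ i, V i (x i) ≤ E}

/-- the Lebesgue measure of a Euclidean space -/
noncomputable def lebesgue (F : Type) [NormedAddCommGroup F] [InnerProductSpace ℝ F]
    [FiniteDimensional ℝ F] [MeasurableSpace F] [BorelSpace F] : Measure F := volume

/-- the Lebesgue measure (of the Euclidean space `W`) of the section `Ω ∩ W` by a subspace `W` -/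
noncomputable def areaIn {F : Type} [NormedAddCommGroup F] [InnerProductSpace ℝ F]
    [FiniteDimensional ℝ F] [MeasurableSpace F] [BorelSpace F] (W : Submodule ℝ F) (Ω : Set F) :
    ℝ≥0∞ := lebesgue W {y : W | (y : F) ∈ Ω}

section defs

variable {κ : Type} [Fintype κ]

open Classical in
/-- divergence of a vector field on `ℝ^κ` -/
noncomputable def divergence (X : EuclideanSpace ℝ κ → EuclideanSpace ℝ κ)
    (x : EuclideanSpace ℝ κ) : ℝ :=
  ∑ i, fderiv ℝ X x (EuclideanSpace.single i 1) i

/-- `C¹` vector fields with compact support in `Ω` and `‖X‖ ≤ 1` -/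
structure Test (Ω : Set (EuclideanSpace ℝ κ)) (X : EuclideanSpace ℝ κ → EuclideanSpace ℝ κ) :
    Prop where
  diff : ContDiff ℝ 1 X
  comp : HasCompactSupport X
  sub : tsupport X ⊆ Ω
  le : ∀ x, ‖X x‖ ≤ 1

/-- the (De Giorgi) perimeter `P(E; Ω)` of `E` relative to the open set `Ω` -/
noncomputable def perimeter (E Ω : Set (EuclideanSpace ℝ κ)) : ℝ≥0∞ :=
  ⨆ (X : EuclideanSpace ℝ κ → EuclideanSpace ℝ κ) (_ : Test Ω X),
    ENNReal.ofReal (∫ x in E, divergence X x)

/-- the area (Lebesgue measure in the hyperplane `a^⊥`) of the central section of `Ω` by `a^⊥` -/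
noncomputable def sectionArea (Ω : Set (EuclideanSpace ℝ κ)) (a : EuclideanSpace ℝ κ) : ℝ≥0∞ :=
  areaIn (Submodule.span ℝ {a})ᗮ Ω

/-- some central hyperplane section has area at most `C P(E; Ω)` for every measurable `E ⊆ Ω` with
`|E| = |Ω| / 2` -/
def HyperplaneBound (C : ℝ) (Ω : Set (EuclideanSpace ℝ κ)) : Prop :=
  ∃ a : EuclideanSpace ℝ κ, a ≠ 0 ∧ ∀ E : Set (EuclideanSpace ℝ κ), MeasurableSet E → E ⊆ Ω →
    volume E = volume Ω / 2 → sectionArea Ω a ≤ ENNReal.ofReal C * perimeter E Ω

/-- the perimeter is the one used in the proof -/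
theorem perimeter_eq (E Ω : Set (EuclideanSpace ℝ κ)) :
    Pool.Agent.W695.KH.per E Ω = perimeter E Ω := by
  unfold perimeter Pool.Agent.W695.KH.per
  refine iSup_congr fun X => ?_
  refine iSup_congr_Prop ⟨fun h => ⟨h.1, h.2.1, h.2.2.1, h.2.2.2⟩,
    fun h => ⟨h.diff, h.comp, h.sub, h.le⟩⟩ fun _ => rfl

end defs

theorem orl_of {m : ℕ} {K : Set (Euc m)} (h : OrliczBall K) : Pool.Agent.R476.OR.Orl K := by
  obtain ⟨h1, h2, V, E, hV, hK⟩ := h
  exact ⟨h1, h2, V, E, fun i => ⟨(hV i).lsc, (hV i).conv⟩, hK⟩

theorem orlicz_real {n : ℕ} (V : Fin n → ℝ → ℝ) (E : ℝ) (hV : ∀ i, ConvexOn ℝ univ (V i))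
    (hb : Bornology.IsBounded {x : Euc n | ∑ i, V i (x i) ≤ E})
    (hi : (interior {x : Euc n | ∑ i, V i (x i) ≤ E}).Nonempty) :
    OrliczBall {x : Euc n | ∑ i, V i (x i) ≤ E} := by
  obtain ⟨W, F, hW, hK⟩ := Pool.Agent.R476.OR.orl_real V E hV hb hi
  exact ⟨hb, hi, W, F, fun i => ⟨(hW i).lsc, (hW i).conv⟩, hK⟩

/-- the functional inequality for affine images -/
theorem star_of {c : ℝ} {r : ℕ} (H : ∀ (n m : ℕ) (K : Set (Euc m))
    (A : Euc m →ₗ[ℝ] Euc n), 1 ≤ n → m ≤ n + r → Pool.Agent.R476.OR.Orl K →
    Function.Surjective A → IsCompact (A '' K) ∧ Convex ℝ (A '' K) ∧ (interior (A '' K)).Nonempty ∧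
    Pool.Agent.Y506.RG.Star c (Pool.Agent.Y506.PV.ind (A '' K))) {m n : ℕ} {K : Set (Euc m)}
    (T : Euc m →ᵃ[ℝ] Euc n) (hn : 1 ≤ n) (hm : m ≤ n + r) (hK : OrliczBall K)
    (hT : Function.Surjective T) : IsCompact (T '' K) ∧ Convex ℝ (T '' K) ∧
    (interior (T '' K)).Nonempty ∧
    Pool.Agent.Y506.RG.Star c (Pool.Agent.Y506.PV.ind (T '' K)) := by
  have hTL : ∀ x, T x = T.linear x + T 0 := fun x => by
    have h := T.map_vadd 0 x
    simpa [vadd_eq_add] using h
  have hA : Function.Surjective T.linear := by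
    intro y
    obtain ⟨x, hx⟩ := hT (y + T 0)
    refine ⟨x, ?_⟩
    have h := hTL x
    rw [hx] at h
    exact (add_right_cancel h).symm
  obtain ⟨h1, h2, h3, h4⟩ := H n m K T.linear hn hm (orl_of hK) hA
  have he : T '' K = (fun y => y + T 0) '' (T.linear '' K) := by
    rw [image_image]
    exact image_congr fun x _ => hTL x
  have hcp : IsCompact (T '' K) := by
    rw [he]
    exact h1.image (by fun_prop)
  refine ⟨hcp, ?_, ?_, ?_⟩
  · rw [he]
    have h := h2.translate (T 0)
    have e : (fun y => y + T 0) = fun y => T 0 + y := funext fun y => add_comm _ _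
    rw [e]
    exact h
  · rw [he]
    have hop : IsOpen ((fun y => y + T 0) '' interior (T.linear '' K)) :=
      (Homeomorph.addRight (T 0)).isOpenMap _ isOpen_interior
    exact (h3.image _).mono (interior_maximal (image_mono interior_subset) hop)
  · rw [he]
    exact Pool.Agent.Y506.PV.star_trans _ _ (Pool.Agent.Y506.PV.adm_ind _ h1.measurableSet
      h1.isBounded (Pool.Agent.Y506.PV.vol_pos h3)) h4

/-- **The hyperplane form of the KLS conjecture for symmetric generalised Orlicz balls and
projections.** For every `r` there is a constant `C > 0` such that for all `n ≥ 1`, all affine maps `T`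
of `ℝ^m` onto `ℝⁿ`, `m ≤ n + r`, and all generalised Orlicz balls `K ⊂ ℝ^m` for which `T '' K` is
symmetric, the interior `Ω` of `T '' K` has a central hyperplane section `Ω ∩ a^⊥` with
`H_{n-1}(Ω ∩ a^⊥) ≤ C P(E; Ω)` for every measurable `E ⊆ Ω` with `|E| = |Ω| / 2`. For `r = 0` the constant
is absolute, `T` is an affine bijection and `T '' K = {x | ∑_{i < n} V_i(ℓ_i(x)) ≤ E}` with affine
coordinates `ℓ_i`. -/
theorem result : ∀ r : ℕ, ∃ C : ℝ, 0 < C ∧
    ∀ (m n : ℕ) (K : Set (Euc m)) (T : Euc m →ᵃ[ℝ] Euc n), 1 ≤ n → m ≤ n + r →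
    OrliczBall K → Function.Surjective T → (∀ x ∈ T '' K, -x ∈ T '' K) →
    HyperplaneBound C (interior (T '' K)) := by
  intro r
  obtain ⟨c, hc, H⟩ := Pool.Agent.R476.OR.fin_orl r
  obtain ⟨C, hC, H'⟩ := Pool.Agent.Y151.PV.hyp
  refine ⟨C * c, by positivity, fun m n K T hn hm hK hT hs => ?_⟩
  obtain ⟨h1, h2, h3, h4⟩ := star_of H T hn hm hK hT
  obtain ⟨P, hP⟩ : ∃ P : Set (Euc n), P = T '' K := ⟨_, rfl⟩
  rw [← hP] at h1 h2 h3 h4 hs ⊢
  have hcl : closure (interior P) = P := by
    rw [h2.closure_interior_eq_closure_of_nonempty_interior h3, h1.isClosed.closure_eq]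
  have hsi : ∀ x ∈ interior P, -x ∈ interior P := by
    intro x hx
    have hop : IsOpen ((fun y => -y) ⁻¹' interior P) := isOpen_interior.preimage continuous_neg
    have hsub : (fun y => -y) ⁻¹' interior P ⊆ P := by
      intro y hy
      have := hs _ (interior_subset hy)
      rwa [neg_neg] at this
    exact interior_maximal hsub hop (by simpa using hx)
  have h0 : (0 : Euc n) ∈ interior P := by
    obtain ⟨x, hx⟩ := h3
    have h := h2.interior hx (hsi x hx) (by norm_num : (0 : ℝ) ≤ 1 / 2)
      (by norm_num : (0 : ℝ) ≤ 1 / 2) (by norm_num)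
    rwa [smul_neg, add_neg_cancel] at h
  obtain ⟨a, ha, h⟩ := H' n hn (interior P) isOpen_interior h2.interior
    (h1.isBounded.subset interior_subset) h0 hsi c hc (by rw [hcl]; exact h4)
  refine ⟨a, ha, fun E hE hEΩ hvol => ?_⟩
  rw [← perimeter_eq]
  by_cases hp : Pool.Agent.W695.KH.per E (interior P) = ⊤
  · rw [hp, ENNReal.mul_top (ENNReal.ofReal_pos.2 (by positivity)).ne']
    exact le_top
  · refine (h E hE hEΩ hvol _ (Pool.Agent.W695.KH.perLe_toReal E _ hp)).trans (le_of_eq ?_)
    rw [ENNReal.ofReal_mul (by positivity), ENNReal.ofReal_toReal hp]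

/-- The case of finite convex functions: there is an absolute constant `C > 0` such that for all
`n ≥ 1` and all convex functions `V_i : ℝ → ℝ`, `i < n`, and all `E` for which
`K = {x ∈ ℝⁿ | ∑ V_i(x_i) ≤ E}` is bounded, symmetric and with nonempty interior, the interior of `K`
satisfies the inequality with constant `C`. -/
theorem orlicz : ∃ C : ℝ, 0 < C ∧ ∀ (n : ℕ) (V : Fin n → ℝ → ℝ) (E : ℝ), 1 ≤ n →
    (∀ i, ConvexOn ℝ univ (V i)) → Bornology.IsBounded {x : Euc n | ∑ i, V i (x i) ≤ E} →
    (interior {x : Euc n | ∑ i, V i (x i) ≤ E}).Nonempty →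
    (∀ x ∈ {x : Euc n | ∑ i, V i (x i) ≤ E}, -x ∈ {x : Euc n | ∑ i, V i (x i) ≤ E}) →
    HyperplaneBound C (interior {x : Euc n | ∑ i, V i (x i) ≤ E}) := by
  obtain ⟨C, hC, H⟩ := result 0
  refine ⟨C, hC, fun n V E hn hV hb hi hs => ?_⟩
  have e : (AffineMap.id ℝ (Euc n)) '' {x : Euc n | ∑ i, V i (x i) ≤ E} =
      {x : Euc n | ∑ i, V i (x i) ≤ E} := by
    simp
  have h := H n n _ (AffineMap.id ℝ (Euc n)) hn le_rfl (orlicz_real V E hV hb hi)
    Function.surjective_id (by rw [e]; exact hs)
  rwa [e] at h

end Pool.Agent.Results.MP_dc1397_gt.OrliczBalls
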